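import Mathlib

namespace Pool.Agent.Results.MP_c9cfcf_pr.SupBelowOne

open Finset MeasureTheory Polynomial
open scoped ENNReal

/-! ### Definitions -/

section defs
variable {C : Type*}

/-- `f₂ = ∑ p_j²`. -/
noncomputable def f2 (p : PMF C) : ℝ≥0∞ := ∑' j, p j ^ 2

/-- `P(X = i) = p_i² / f₂`. -/
noncomputable def lawX (p : PMF C) (i : C) : ℝ≥0∞ := p i ^ 2 / f2 p

/-- `P(Y = i) = p_i² ∑_k (k+1)! ∑_{J ⊆ C \ {i}, |J| = k} ∏_{j ∈ J} p_j`. -/
noncomputable def lawY (p : PMF C) (i : C) : ℝ≥0∞ :=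
  p i ^ 2 * ∑' k : ℕ, ((k + 1).factorial : ℝ≥0∞) *
    ∑' J : {J : Finset C // J.card = k ∧ i ∉ J}, ∏ j ∈ J.1, p j

/-- Total variation distance between the laws of `X` and `Y`. -/
noncomputable def D (p : PMF C) : ℝ :=
  1 / 2 * ∑' i, |(lawX p i).toReal - (lawY p i).toReal|

end defs

/-! ### The functional `Λ(t^k) = k!` -/

noncomputable def Lam : ℝ[X] →ₗ[ℝ] ℝ :=
  Polynomial.lsum fun k => (k.factorial : ℝ) • LinearMap.id

lemma Lam_monomial (k : ℕ) (a : ℝ) : Lam (monomial k a) = k.factorial * a := by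
  simp [Lam, Polynomial.lsum_apply, Polynomial.sum_monomial_index]

lemma Lam_derivative (q : ℝ[X]) : Lam (derivative q) = Lam q - q.eval 0 := by
  induction q using Polynomial.induction_on' with
  | add p q hp hq => simp only [map_add, hp, hq, eval_add]; ring
  | monomial k a =>
    rw [derivative_monomial, Lam_monomial, Lam_monomial]
    rcases k with _ | k
    · simp
    · simp only [Nat.add_sub_cancel, eval_monomial]
      rw [Nat.factorial_succ]
      push_cast
      ring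

lemma Lam_integral (q : ℝ[X]) : IntegrableOn (fun t : ℝ => q.eval t * Real.exp (-t)) (Set.Ioi 0) ∧
    ∫ t in Set.Ioi (0 : ℝ), q.eval t * Real.exp (-t) = Lam q := by
  induction q using Polynomial.induction_on' with
  | add p q hp hq =>
    simp only [eval_add, add_mul, map_add]
    exact ⟨hp.1.add hq.1, by rw [integral_add hp.1 hq.1, hp.2, hq.2]⟩
  | monomial k a =>
    have hk : (0 : ℝ) < (k : ℝ) + 1 := by positivity
    have h1 := Real.GammaIntegral_convergent hk
    have h2 := Real.Gamma_eq_integral hk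
    rw [Real.Gamma_nat_eq_factorial] at h2
    have h3 : ∀ t ∈ Set.Ioi (0 : ℝ), Real.exp (-t) * t ^ ((k : ℝ) + 1 - 1) * a =
        (monomial k a).eval t * Real.exp (-t) := by
      intro t _
      rw [eval_monomial, add_sub_cancel_right, Real.rpow_natCast]
      ring
    refine ⟨IntegrableOn.congr_fun (f := fun t => Real.exp (-t) * t ^ ((k : ℝ) + 1 - 1) * a)
      (h1.mul_const a) h3 measurableSet_Ioi, ?_⟩
    rw [← setIntegral_congr_fun measurableSet_Ioi h3, integral_mul_const, ← h2, Lam_monomial]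

/-! ### Finite products -/

section fin
variable {C : Type*} [DecidableEq C] (P : C → ℝ)

/-- `E_F(t) = ∏_{j ∈ F} (1 + P_j t)`. -/
noncomputable def E (F : Finset C) : ℝ[X] := ∏ j ∈ F, (1 + Polynomial.C (P j) * X)

omit [DecidableEq C] in
lemma E_expand (F : Finset C) :
    E P F = ∑ J ∈ F.powerset, monomial J.card (∏ j ∈ J, P j) := by
  unfold E
  rw [Finset.prod_one_add]
  refine sum_congr rfl fun J _ => ?_
  rw [prod_mul_distrib, prod_const, ← map_prod, C_mul_X_pow_eq_monomial]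

omit [DecidableEq C] in
lemma Lam_X_E (F : Finset C) :
    Lam (X * E P F) = ∑ J ∈ F.powerset, ((J.card + 1).factorial : ℝ) * ∏ j ∈ J, P j := by
  rw [E_expand, mul_sum, map_sum]
  refine sum_congr rfl fun J _ => ?_
  rw [X_mul_monomial, Lam_monomial]

lemma E_insert (F : Finset C) (i : C) (hi : i ∈ F) :
    E P F = (1 + Polynomial.C (P i) * X) * E P (F.erase i) := by
  exact (mul_prod_erase F (fun j => 1 + Polynomial.C (P j) * X) hi).symm

lemma E_derivative (F : Finset C) :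
    derivative (E P F) = ∑ i ∈ F, Polynomial.C (P i) * E P (F.erase i) := by
  unfold E
  rw [derivative_prod_finset]
  refine sum_congr rfl fun i _ => ?_
  rw [derivative_add, derivative_one, zero_add, derivative_C_mul, derivative_X, mul_one, mul_comm]

/-- The key identity, in the form of an inequality. -/
lemma total_le (hP : ∀ j, 0 ≤ P j) (F : Finset C) (h1 : ∑ j ∈ F, P j ≤ 1) :
    ∑ i ∈ F, P i ^ 2 * Lam (X * E P (F.erase i)) ≤ 1 := by
  have h2 : ∑ i ∈ F, Polynomial.C (P i ^ 2) * (X * E P (F.erase i)) =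
      Polynomial.C (∑ j ∈ F, P j) * E P F - derivative (E P F) := by
    rw [E_derivative, map_sum, sum_mul, ← sum_sub_distrib]
    refine sum_congr rfl fun i hi => ?_
    rw [E_insert P F i hi, map_pow]
    ring
  have h3 : ∑ i ∈ F, P i ^ 2 * Lam (X * E P (F.erase i)) =
      (∑ j ∈ F, P j) * Lam (E P F) - (Lam (E P F) - 1) := by
    have h4 := congrArg Lam h2
    rw [map_sum, map_sub, Lam_derivative, C_mul', map_smul, smul_eq_mul] at h4
    have h5 : (E P F).eval 0 = 1 := by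
      unfold E
      rw [eval_prod]
      simp
    rw [h5] at h4
    rw [← h4]
    refine sum_congr rfl fun i _ => ?_
    rw [C_mul', map_smul, smul_eq_mul]
  rw [h3]
  have h6 : 0 ≤ Lam (E P F) := by
    rw [E_expand, map_sum]
    refine sum_nonneg fun J _ => ?_
    rw [Lam_monomial]
    exact mul_nonneg (Nat.cast_nonneg _) (prod_nonneg fun j _ => hP j)
  nlinarith

lemma one_add_ge {x : ℝ} (hx : 0 ≤ x) : Real.exp (x - x ^ 2 / 2) ≤ 1 + x := by
  have h1 := Real.le_log_one_add_of_nonneg hx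
  have h2 : x - x ^ 2 / 2 ≤ 2 * x / (x + 2) := by
    rw [le_div_iff₀ (by linarith)]
    nlinarith [pow_nonneg hx 3]
  calc Real.exp (x - x ^ 2 / 2) ≤ Real.exp (Real.log (1 + x)) := Real.exp_le_exp.2 (h2.trans h1)
    _ = 1 + x := Real.exp_log (by linarith)

omit [DecidableEq C] in
/-- Lower bound for `Λ(t E_F(t))`. -/
lemma Lam_ge (hP : ∀ j, 0 ≤ P j) (F : Finset C) {σ : ℝ} (hσ : 0 < σ)
    (h1 : 1 - 2 * σ ≤ ∑ j ∈ F, P j) (h2 : ∑ j ∈ F, P j ^ 2 ≤ σ ^ 2) :
    Real.exp (-(5 / 2)) / (2 * σ ^ 2) ≤ Lam (X * E P F) := by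
  obtain ⟨hint, hval⟩ := Lam_integral (X * E P F)
  rw [← hval]
  have hev : ∀ t : ℝ, (X * E P F).eval t = t * ∏ j ∈ F, (1 + P j * t) := by
    intro t
    unfold E
    rw [eval_mul, eval_X, eval_prod]
    simp
  have hle : ∫ t in Set.Ioc (0 : ℝ) (1 / σ), t * Real.exp (-(5 / 2)) ≤
      ∫ t in Set.Ioc (0 : ℝ) (1 / σ), (X * E P F).eval t * Real.exp (-t) := by
    refine setIntegral_mono_on ?_ (hint.mono_set fun t ht => ht.1) measurableSet_Ioc fun t ht => ?_
    · exact (Continuous.integrableOn_Ioc (by fun_prop))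
    · have ht0 : 0 ≤ t := ht.1.le
      have htσ : σ * t ≤ 1 := by
        have := ht.2
        rw [le_div_iff₀ hσ] at this
        linarith
      rw [hev]
      have h3 : Real.exp (∑ j ∈ F, (P j * t - (P j * t) ^ 2 / 2)) ≤ ∏ j ∈ F, (1 + P j * t) := by
        rw [Real.exp_sum]
        exact prod_le_prod (fun _ _ => (Real.exp_pos _).le)
          (fun j _ => one_add_ge (mul_nonneg (hP j) ht0))
      have h4 : ∑ j ∈ F, (P j * t - (P j * t) ^ 2 / 2) =
          t * ∑ j ∈ F, P j - t ^ 2 / 2 * ∑ j ∈ F, P j ^ 2 := by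
        rw [sum_sub_distrib, mul_sum, mul_sum]
        congr 1
        · exact sum_congr rfl fun _ _ => by ring
        · exact sum_congr rfl fun _ _ => by ring
      have h5 : -(5 / 2) ≤ ∑ j ∈ F, (P j * t - (P j * t) ^ 2 / 2) + -t := by
        rw [h4]
        have e1 : t * (1 - 2 * σ) ≤ t * ∑ j ∈ F, P j := mul_le_mul_of_nonneg_left h1 ht0
        have e2 : t ^ 2 / 2 * ∑ j ∈ F, P j ^ 2 ≤ t ^ 2 / 2 * σ ^ 2 :=
          mul_le_mul_of_nonneg_left h2 (by positivity)
        have e3 : t ^ 2 / 2 * σ ^ 2 ≤ 1 / 2 := by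
          have : 0 ≤ σ * t := mul_nonneg hσ.le ht0
          nlinarith
        nlinarith
      calc t * Real.exp (-(5 / 2)) ≤
          t * Real.exp (∑ j ∈ F, (P j * t - (P j * t) ^ 2 / 2) + -t) :=
            mul_le_mul_of_nonneg_left (Real.exp_le_exp.2 h5) ht0
        _ = t * (Real.exp (∑ j ∈ F, (P j * t - (P j * t) ^ 2 / 2)) * Real.exp (-t)) := by
            rw [Real.exp_add]
        _ ≤ t * ((∏ j ∈ F, (1 + P j * t)) * Real.exp (-t)) :=
            mul_le_mul_of_nonneg_left (mul_le_mul_of_nonneg_right h3 (Real.exp_pos _).le) ht0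
        _ = _ := by ring
  have hval1 : ∫ t in Set.Ioc (0 : ℝ) (1 / σ), t * Real.exp (-(5 / 2)) =
      Real.exp (-(5 / 2)) / (2 * σ ^ 2) := by
    rw [integral_mul_const, ← intervalIntegral.integral_of_le (by positivity), integral_id]
    field_simp
    ring
  rw [← hval1]
  refine hle.trans (setIntegral_mono_set hint ?_ (Filter.Eventually.of_forall fun t ht => ht.1))
  refine (ae_restrict_iff' measurableSet_Ioi).2 (Filter.Eventually.of_forall fun t ht => ?_)
  have ht0 : (0 : ℝ) < t := ht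
  simp only [Pi.zero_apply]
  rw [hev]
  refine mul_nonneg (mul_nonneg ht0.le (prod_nonneg fun j _ => ?_)) (Real.exp_pos _).le
  have := mul_nonneg (hP j) ht0.le
  linarith

end fin

/-! ### Probability mass functions -/

section pmf
open scoped Classical in
/-- The sum over all finite sets avoiding `i`. -/
noncomputable def cI {C : Type*} (p : PMF C) (i : C) : ℝ≥0∞ :=
  ∑' J : Finset C, if i ∈ J then 0 else ((J.card + 1).factorial : ℝ≥0∞) * ∏ j ∈ J, p j

variable {C : Type*} (p : PMF C)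

lemma lawY_eq (i : C) : lawY p i = p i ^ 2 * cI p i := by
  classical
  unfold lawY cI
  congr 1
  have h1 : ∀ k : ℕ, ((k + 1).factorial : ℝ≥0∞) *
      ∑' J : {J : Finset C // J.card = k ∧ i ∉ J}, ∏ j ∈ J.1, p j =
      ∑' J : Finset C, if J.card = k ∧ i ∉ J then ((k + 1).factorial : ℝ≥0∞) * ∏ j ∈ J, p j
        else 0 := by
    intro k
    rw [← ENNReal.tsum_mul_left]
    have h2 := tsum_subtype {J : Finset C | J.card = k ∧ i ∉ J}
      (fun J => ((k + 1).factorial : ℝ≥0∞) * ∏ j ∈ J, p j)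
    refine h2.trans (tsum_congr fun J => ?_)
    rw [Set.indicator_apply]
    rfl
  rw [tsum_congr h1, ENNReal.tsum_comm]
  refine tsum_congr fun J => ?_
  rw [tsum_eq_single J.card]
  · by_cases hi : i ∈ J
    · rw [if_pos hi, if_neg (fun h => h.2 hi)]
    · rw [if_neg hi, if_pos ⟨rfl, hi⟩]
  · intro k hk
    rw [if_neg (fun h => hk h.1.symm)]

lemma fin_sum_eq (F : Finset C) :
    ∑ J ∈ F.powerset, ((J.card + 1).factorial : ℝ≥0∞) * ∏ j ∈ J, p j =
      ENNReal.ofReal (Lam (X * E (fun j => (p j).toReal) F)) := by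
  rw [Lam_X_E, ENNReal.ofReal_sum_of_nonneg]
  · refine sum_congr rfl fun J _ => ?_
    rw [ENNReal.ofReal_mul (Nat.cast_nonneg _), ENNReal.ofReal_natCast,
      ENNReal.ofReal_prod_of_nonneg (fun _ _ => ENNReal.toReal_nonneg)]
    congr 1
    refine prod_congr rfl fun j _ => ?_
    rw [ENNReal.ofReal_toReal (p.apply_ne_top j)]
  · intro J _
    exact mul_nonneg (Nat.cast_nonneg _) (prod_nonneg fun _ _ => ENNReal.toReal_nonneg)

lemma sum_toReal_le (F : Finset C) : ∑ j ∈ F, (p j).toReal ≤ 1 := by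
  rw [← ENNReal.toReal_sum (fun j _ => p.apply_ne_top j)]
  have h1 : ∑ j ∈ F, p j ≤ 1 := by
    rw [← p.tsum_coe]
    exact ENNReal.sum_le_tsum F
  exact ENNReal.toReal_le_of_le_ofReal zero_le_one (by rwa [ENNReal.ofReal_one])

lemma tsum_lawY_le : ∑' i, lawY p i ≤ 1 := by
  classical
  have h1 : ∀ i, lawY p i = ∑' J : Finset C, p i ^ 2 *
      (if i ∈ J then 0 else ((J.card + 1).factorial : ℝ≥0∞) * ∏ j ∈ J, p j) := by
    intro i
    rw [lawY_eq, cI, ENNReal.tsum_mul_left]
  rw [tsum_congr h1, ← ENNReal.tsum_prod (f := fun i (J : Finset C) => p i ^ 2 *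
      (if i ∈ J then 0 else ((J.card + 1).factorial : ℝ≥0∞) * ∏ j ∈ J, p j)),
    ENNReal.tsum_eq_iSup_sum]
  refine iSup_le fun s => ?_
  set F : Finset C := s.image Prod.fst ∪ s.biUnion Prod.snd with hF
  have hs : s ⊆ F ×ˢ F.powerset := by
    intro x hx
    rw [mem_product, mem_powerset]
    refine ⟨mem_union_left _ (mem_image_of_mem _ hx), fun j hj => mem_union_right _ ?_⟩
    exact mem_biUnion.2 ⟨x, hx, hj⟩
  refine (sum_le_sum_of_subset hs).trans ?_
  rw [sum_product]
  have h2 : ∀ i ∈ F, ∑ J ∈ F.powerset, p i ^ 2 *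
      (if i ∈ J then 0 else ((J.card + 1).factorial : ℝ≥0∞) * ∏ j ∈ J, p j) =
      ENNReal.ofReal ((p i).toReal ^ 2 * Lam (X * E (fun j => (p j).toReal) (F.erase i))) := by
    intro i _
    rw [← mul_sum, ENNReal.ofReal_mul (by positivity), ← fin_sum_eq,
      ENNReal.ofReal_pow ENNReal.toReal_nonneg, ENNReal.ofReal_toReal (p.apply_ne_top i)]
    congr 1
    have h3 : (F.erase i).powerset ⊆ F.powerset := powerset_mono.2 (erase_subset _ _)
    rw [← sum_subset h3]
    · refine sum_congr rfl fun J hJ => ?_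
      rw [mem_powerset] at hJ
      rw [if_neg (fun h => notMem_erase i F (hJ h))]
    · intro J hJ hJ'
      rw [mem_powerset] at hJ hJ'
      rw [if_pos]
      by_contra hcon
      exact hJ' (fun j hj => mem_erase.2 ⟨fun h => hcon (h ▸ hj), hJ hj⟩)
  rw [sum_congr rfl h2, ← ENNReal.ofReal_sum_of_nonneg]
  · have h3 := total_le (fun j => (p j).toReal) (fun _ => ENNReal.toReal_nonneg) F
      (sum_toReal_le p F)
    calc ENNReal.ofReal _ ≤ ENNReal.ofReal 1 := ENNReal.ofReal_le_ofReal h3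
      _ = 1 := ENNReal.ofReal_one
  · intro i _
    refine mul_nonneg (by positivity) ?_
    rw [Lam_X_E]
    exact sum_nonneg fun J _ => mul_nonneg (Nat.cast_nonneg _)
      (prod_nonneg fun _ _ => ENNReal.toReal_nonneg)

lemma f2_le : f2 p ≤ 1 := by
  rw [← p.tsum_coe]
  refine ENNReal.tsum_le_tsum fun j => ?_
  rw [sq]
  exact mul_le_of_le_one_left bot_le (p.coe_le_one j)

lemma f2_ne_top : f2 p ≠ ⊤ := ne_top_of_le_ne_top ENNReal.one_ne_top (f2_le p)

lemma f2_ne_zero : f2 p ≠ 0 := by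
  intro h
  rw [f2, ENNReal.tsum_eq_zero] at h
  have h1 := p.tsum_coe
  have h2 : ∀ j, p j = 0 := fun j => by simpa using h j
  simp [h2] at h1

/-- The constant. -/
noncomputable def κ : ℝ := Real.exp (-(5 / 2)) / 2

lemma κ_pos : 0 < κ := by unfold κ; positivity

lemma κ_le : κ ≤ 1 := by
  unfold κ
  have : Real.exp (-(5 / 2)) ≤ 1 := Real.exp_le_one_iff.2 (by norm_num)
  linarith

lemma cI_ge (i : C) : ENNReal.ofReal κ / f2 p ≤ cI p i := by
  classical
  set f := (f2 p).toReal with hf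
  have hf0 : 0 < f := ENNReal.toReal_pos (f2_ne_zero p) (f2_ne_top p)
  set σ := Real.sqrt f with hσ
  have hσ0 : 0 < σ := Real.sqrt_pos.2 hf0
  have hσ2 : σ ^ 2 = f := Real.sq_sqrt hf0.le
  have hfe : f2 p = ENNReal.ofReal f := (ENNReal.ofReal_toReal (f2_ne_top p)).symm
  -- a finite set with almost full mass
  obtain ⟨G, hG⟩ : ∃ G : Finset C, ENNReal.ofReal (1 - σ) < ∑ j ∈ G, p j := by
    have h1 : ENNReal.ofReal (1 - σ) < ∑' j, p j := by
      rw [p.tsum_coe, ← ENNReal.ofReal_one]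
      exact (ENNReal.ofReal_lt_ofReal_iff one_pos).2 (by linarith)
    rw [ENNReal.tsum_eq_iSup_sum] at h1
    exact lt_iSup_iff.1 h1
  have hG' : 1 - σ < ∑ j ∈ G, (p j).toReal := by
    rw [← ENNReal.toReal_sum (fun j _ => p.apply_ne_top j)]
    have hσ1 : σ ≤ 1 := by
      rw [hσ, Real.sqrt_le_one, hf]
      exact ENNReal.toReal_le_of_le_ofReal zero_le_one (by rw [ENNReal.ofReal_one]; exact f2_le p)
    exact (ENNReal.ofReal_lt_iff_lt_toReal (by linarith)
      (ENNReal.sum_ne_top.2 fun j _ => p.apply_ne_top j)).1 hG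
  set F := G.erase i with hF
  have hPi : (p i).toReal ≤ σ := by
    rw [hσ]
    apply Real.le_sqrt_of_sq_le
    rw [hf, ← ENNReal.toReal_pow]
    exact ENNReal.toReal_mono (f2_ne_top p) (ENNReal.le_tsum i)
  have hF1 : 1 - 2 * σ ≤ ∑ j ∈ F, (p j).toReal := by
    have h1 : ∑ j ∈ G, (p j).toReal ≤ ∑ j ∈ F, (p j).toReal + (p i).toReal := by
      by_cases hi : i ∈ G
      · rw [hF, sum_erase_add _ _ hi]
      · rw [hF, erase_eq_of_notMem hi]
        have : 0 ≤ (p i).toReal := ENNReal.toReal_nonneg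
        linarith
    linarith
  have hF2 : ∑ j ∈ F, (p j).toReal ^ 2 ≤ σ ^ 2 := by
    rw [hσ2, hf]
    have h1 : ∑ j ∈ F, (p j).toReal ^ 2 = (∑ j ∈ F, p j ^ 2).toReal := by
      rw [ENNReal.toReal_sum (fun j _ => ENNReal.pow_ne_top (p.apply_ne_top j))]
      exact sum_congr rfl fun j _ => (ENNReal.toReal_pow _ _).symm
    rw [h1]
    exact ENNReal.toReal_mono (f2_ne_top p) (ENNReal.sum_le_tsum F)
  have h3 := Lam_ge (fun j => (p j).toReal) (fun _ => ENNReal.toReal_nonneg) F hσ0 hF1 hF2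
  have h4 : ∑ J ∈ F.powerset, ((J.card + 1).factorial : ℝ≥0∞) * ∏ j ∈ J, p j ≤ cI p i := by
    unfold cI
    refine le_trans (le_of_eq ?_) (ENNReal.sum_le_tsum F.powerset)
    refine sum_congr rfl fun J hJ => ?_
    rw [mem_powerset] at hJ
    rw [if_neg (fun h => notMem_erase i G (hJ h))]
  refine le_trans ?_ h4
  rw [fin_sum_eq, hfe, ← ENNReal.ofReal_div_of_pos hf0]
  refine ENNReal.ofReal_le_ofReal (le_trans (le_of_eq ?_) h3)
  rw [hσ2, κ]
  field_simp

lemma lawY_ge (i : C) : ENNReal.ofReal κ * lawX p i ≤ lawY p i := by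
  rw [lawY_eq, lawX]
  calc ENNReal.ofReal κ * (p i ^ 2 / f2 p) = p i ^ 2 * (ENNReal.ofReal κ / f2 p) := by
        rw [div_eq_mul_inv, div_eq_mul_inv]; ring
    _ ≤ p i ^ 2 * cI p i := mul_le_mul_right (cI_ge p i) _

lemma tsum_lawX : ∑' i, lawX p i = 1 := by
  unfold lawX
  simp_rw [div_eq_mul_inv]
  rw [ENNReal.tsum_mul_right]
  exact ENNReal.mul_inv_cancel (f2_ne_zero p) (f2_ne_top p)

theorem D_le : D p ≤ 1 - κ := by
  have hX := tsum_lawX p
  have hY := tsum_lawY_le p
  have hXt : ∀ i, lawX p i ≠ ⊤ := fun i => ne_top_of_le_ne_top ENNReal.one_ne_top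
    ((ENNReal.le_tsum i).trans hX.le)
  have hYt : ∀ i, lawY p i ≠ ⊤ := fun i => ne_top_of_le_ne_top ENNReal.one_ne_top
    ((ENNReal.le_tsum i).trans hY)
  have sX : Summable fun i => (lawX p i).toReal := ENNReal.summable_toReal (by rw [hX]; simp)
  have sY : Summable fun i => (lawY p i).toReal :=
    ENNReal.summable_toReal (ne_top_of_le_ne_top ENNReal.one_ne_top hY)
  have tX : ∑' i, (lawX p i).toReal = 1 := by
    rw [← ENNReal.tsum_toReal_eq hXt, hX, ENNReal.toReal_one]
  have tY : ∑' i, (lawY p i).toReal ≤ 1 := by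
    rw [← ENNReal.tsum_toReal_eq hYt]
    exact ENNReal.toReal_le_of_le_ofReal zero_le_one (by rwa [ENNReal.ofReal_one])
  have hle : ∀ i, κ * (lawX p i).toReal ≤ (lawY p i).toReal := by
    intro i
    have h1 := ENNReal.toReal_mono (hYt i) (lawY_ge p i)
    rwa [ENNReal.toReal_mul, ENNReal.toReal_ofReal κ_pos.le] at h1
  have hb : ∀ i, |(lawX p i).toReal - (lawY p i).toReal| ≤
      (lawX p i).toReal + (lawY p i).toReal - 2 * κ * (lawX p i).toReal := by
    intro i
    have h1 := hle i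
    have h2 : 0 ≤ (lawX p i).toReal := ENNReal.toReal_nonneg
    have h3 := κ_le
    rw [abs_le]
    constructor
    · nlinarith
    · nlinarith
  have sR : Summable fun i => (lawX p i).toReal + (lawY p i).toReal -
      2 * κ * (lawX p i).toReal := (sX.add sY).sub (sX.mul_left _)
  have sA : Summable fun i => |(lawX p i).toReal - (lawY p i).toReal| := (sX.sub sY).abs
  have h1 : ∑' i, |(lawX p i).toReal - (lawY p i).toReal| ≤
      ∑' i, ((lawX p i).toReal + (lawY p i).toReal - 2 * κ * (lawX p i).toReal) :=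
    sA.tsum_le_tsum hb sR
  rw [(sX.add sY).tsum_sub (sX.mul_left _), sX.tsum_add sY, tsum_mul_left, tX] at h1
  unfold D
  linarith

end pmf

/-- `ℓ₀ = sup_p D(p) < 1`. -/
theorem result : ∃ l : ℝ, l < 1 ∧ ∀ (C : Type) (p : PMF C), D p ≤ l :=
  ⟨1 - κ, by linarith [κ_pos], fun _ p => D_le p⟩

end Pool.Agent.Results.MP_c9cfcf_pr.SupBelowOne
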